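import Pool.Agent.Helper58.DM.Goals

/-!
# Project DM, packet K_DER: the derivation of a Kähler metric.
-/

set_option autoImplicit false
set_option linter.unusedSectionVars false

namespace Pool.Agent.Helper30.DM

open Matrix Pool.Agent.Helper58.DH Pool.Agent.Helper58.DM

theorem cls_symm (a b : Fin 5) : cls a b = cls b a := by decide +revert

theorem cls_bar (a b : Fin 5) : cls (bar5 a) (bar5 b) = cls a b := by decide +revert

theorem bar5_inj (a b : Fin 5) : bar5 a = bar5 b ↔ a = b := by decide +revert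

theorem cls_self (a : Fin 5) : cls a a = none := by decide +revert

section

variable {I : Type} [Fintype I] [DecidableEq I] (F : Frame I)

/-! ## The bracket -/

theorem l_add (X Y Y' : Matrix I I ℂ) : ⁅X, Y + Y'⁆ = ⁅X, Y⁆ + ⁅X, Y'⁆ := by
  rw [Ring.lie_def, Ring.lie_def, Ring.lie_def, mul_add, add_mul]
  abel

theorem add_l (X X' Y : Matrix I I ℂ) : ⁅X + X', Y⁆ = ⁅X, Y⁆ + ⁅X', Y⁆ := by
  rw [Ring.lie_def, Ring.lie_def, Ring.lie_def, mul_add, add_mul]
  abel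

theorem l_zero (X : Matrix I I ℂ) : ⁅X, (0 : Matrix I I ℂ)⁆ = 0 := by
  rw [Ring.lie_def, mul_zero, zero_mul, sub_zero]

theorem zero_l (X : Matrix I I ℂ) : ⁅(0 : Matrix I I ℂ), X⁆ = 0 := by
  rw [Ring.lie_def, mul_zero, zero_mul, sub_zero]

theorem l_skew (X Y : Matrix I I ℂ) : -⁅Y, X⁆ = ⁅X, Y⁆ := by
  rw [Ring.lie_def, Ring.lie_def, neg_sub]

theorem l_smul (r : ℝ) (X Y : Matrix I I ℂ) : ⁅X, r • Y⁆ = r • ⁅X, Y⁆ := by
  rw [Ring.lie_def, Ring.lie_def, mul_smul_comm, smul_mul_assoc, smul_sub]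

theorem l_sum {κ : Type} (s : Finset κ) (X : Matrix I I ℂ) (A : κ → Matrix I I ℂ) :
    ⁅X, ∑ c ∈ s, A c⁆ = ∑ c ∈ s, ⁅X, A c⁆ := by
  classical
  induction s using Finset.induction_on with
  | empty => rw [Finset.sum_empty, Finset.sum_empty, l_zero]
  | insert a s ha ih => rw [Finset.sum_insert ha, Finset.sum_insert ha, l_add, ih]

theorem ne_of_cls {i j : I} {c : Fin 6} (h : cls (F.bl i) (F.bl j) = some c) : F.bl i ≠ F.bl j := by
  intro h1
  rw [h1, cls_self] at h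
  exact absurd h (by simp)

/-! ## The form `B` -/

theorem B_comm (X Y : Matrix I I ℂ) : B F X Y = B F Y X := by
  unfold B
  rw [Matrix.trace_mul_comm]

theorem B_add (X X' Y : Matrix I I ℂ) : B F (X + X') Y = B F X Y + B F X' Y := by
  unfold B
  rw [add_mul, Matrix.trace_add, Complex.add_re]
  ring

theorem B_neg (X Y : Matrix I I ℂ) : B F (-X) Y = -B F X Y := by
  unfold B
  rw [neg_mul, Matrix.trace_neg, Complex.neg_re]
  ring

theorem B_sub (X X' Y : Matrix I I ℂ) : B F (X - X') Y = B F X Y - B F X' Y := by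
  rw [sub_eq_add_neg, B_add, B_neg, sub_eq_add_neg]

theorem B_add_right (X Y Y' : Matrix I I ℂ) : B F X (Y + Y') = B F X Y + B F X Y' := by
  rw [B_comm, B_add, B_comm F Y, B_comm F Y']

theorem B_neg_right (X Y : Matrix I I ℂ) : B F X (-Y) = -B F X Y := by
  rw [B_comm, B_neg, B_comm F Y]

theorem B_smul (r : ℝ) (X Y : Matrix I I ℂ) : B F (r • X) Y = r * B F X Y := by
  unfold B
  rw [smul_mul_assoc, Matrix.trace_smul, Complex.smul_re, smul_eq_mul]
  ring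

theorem B_zero (Y : Matrix I I ℂ) : B F 0 Y = 0 := by
  unfold B
  rw [zero_mul, Matrix.trace_zero, Complex.zero_re, mul_zero, neg_zero]

theorem B_sum {κ : Type} (s : Finset κ) (A : κ → Matrix I I ℂ) (Y : Matrix I I ℂ) :
    B F (∑ c ∈ s, A c) Y = ∑ c ∈ s, B F (A c) Y := by
  classical
  induction s using Finset.induction_on with
  | empty => rw [Finset.sum_empty, Finset.sum_empty, B_zero]
  | insert a s ha ih => rw [Finset.sum_insert ha, Finset.sum_insert ha, B_add, ih]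

theorem B_inv (X Y Z : Matrix I I ℂ) : B F ⁅X, Y⁆ Z = B F X ⁅Y, Z⁆ := by
  unfold B
  rw [Ring.lie_def, Ring.lie_def, sub_mul, mul_sub, Matrix.trace_sub, Matrix.trace_sub]
  have h1 : (X * Y * Z).trace = (X * (Y * Z)).trace := by rw [Matrix.mul_assoc]
  have h2 : (Y * X * Z).trace = (X * (Z * Y)).trace := by
    rw [Matrix.mul_assoc, Matrix.trace_mul_comm, Matrix.mul_assoc]
  rw [h1, h2]

theorem B_pos (hk : 0 < kk F) (X : Matrix I I ℂ) (hX : Xᴴ = -X) (h : B F X X = 0) : X = 0 := by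
  have h1 : (X * X).trace.re = -∑ i, ∑ j, Complex.normSq (X i j) := by
    rw [Matrix.trace, Complex.re_sum, ← Finset.sum_neg_distrib]
    refine Finset.sum_congr rfl fun i _ ↦ ?_
    rw [Matrix.diag_apply, Matrix.mul_apply, Complex.re_sum, ← Finset.sum_neg_distrib]
    refine Finset.sum_congr rfl fun j _ ↦ ?_
    have h2 : X j i = -(starRingEnd ℂ) (X i j) := by
      have h3 := congrFun (congrFun hX j) i
      rw [Matrix.conjTranspose_apply, Matrix.neg_apply] at h3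
      rw [← neg_eq_iff_eq_neg, ← h3]
      rfl
    rw [h2, mul_neg, Complex.mul_conj, Complex.neg_re, Complex.ofReal_re]
  have h2 : ∑ i, ∑ j, Complex.normSq (X i j) = 0 := by
    unfold B at h
    rw [h1] at h
    have : kk F * ∑ i, ∑ j, Complex.normSq (X i j) = 0 := by linarith
    exact (mul_eq_zero.1 this).resolve_left hk.ne'
  ext i j
  have h3 := (Finset.sum_eq_zero_iff_of_nonneg
    (fun i _ ↦ Finset.sum_nonneg fun j _ ↦ Complex.normSq_nonneg (X i j))).1 h2 i (Finset.mem_univ i)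
  have h4 := (Finset.sum_eq_zero_iff_of_nonneg
    (fun j _ ↦ Complex.normSq_nonneg (X i j))).1 h3 j (Finset.mem_univ j)
  rw [Matrix.zero_apply]
  exact Complex.normSq_eq_zero.1 h4

/-! ## `comp` and `prm` -/

theorem comp_add (c : Fin 6) (X Y : Matrix I I ℂ) : comp F c (X + Y) = comp F c X + comp F c Y := by
  ext i j
  rw [Matrix.add_apply]
  unfold Helper58.DM.comp
  split_ifs
  · rw [Matrix.add_apply]
  · rw [add_zero]

theorem comp_zero (c : Fin 6) : comp F c (0 : Matrix I I ℂ) = 0 := by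
  ext i j
  unfold Helper58.DM.comp
  split_ifs <;> rfl

theorem comp_neg (c : Fin 6) (X : Matrix I I ℂ) : comp F c (-X) = -comp F c X := by
  ext i j
  rw [Matrix.neg_apply]
  unfold Helper58.DM.comp
  split_ifs
  · rw [Matrix.neg_apply]
  · rw [neg_zero]

theorem prm_add (X Y : Matrix I I ℂ) : prm F (X + Y) = prm F X + prm F Y := by
  ext i j
  rw [Matrix.add_apply]
  unfold prm
  split_ifs
  · rw [add_zero]
  · rw [Matrix.add_apply]

theorem prm_neg (X : Matrix I I ℂ) : prm F (-X) = -prm F X := by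
  ext i j
  rw [Matrix.neg_apply]
  unfold prm
  split_ifs
  · rw [neg_zero]
  · rw [Matrix.neg_apply]

theorem comp_prm (c : Fin 6) (X : Matrix I I ℂ) : comp F c (prm F X) = comp F c X := by
  ext i j
  unfold Helper58.DM.comp
  split_ifs with h
  · unfold prm
    rw [if_neg (ne_of_cls F h)]
  · rfl

theorem trace_mul (X Y : Matrix I I ℂ) : (X * Y).trace = ∑ i, ∑ j, X i j * Y j i := by
  rw [Matrix.trace]
  exact Finset.sum_congr rfl fun i _ ↦ by rw [Matrix.diag_apply, Matrix.mul_apply]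

theorem B_comp (c : Fin 6) (X Y : Matrix I I ℂ) : B F (comp F c X) (comp F c Y) = B F (comp F c X) Y := by
  unfold B
  rw [trace_mul, trace_mul]
  congr 3
  refine Finset.sum_congr rfl fun i _ ↦ Finset.sum_congr rfl fun j _ ↦ ?_
  unfold Helper58.DM.comp
  rw [cls_symm (F.bl j)]
  split_ifs
  · rfl
  · rw [zero_mul, zero_mul]

/-- the block diagonal matrices -/
def Bd (X : Matrix I I ℂ) : Prop := ∀ i j, F.bl i ≠ F.bl j → X i j = 0

theorem comp_mul_left (c : Fin 6) {X : Matrix I I ℂ} (hX : Bd F X) (A : Matrix I I ℂ) :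
    comp F c (X * A) = X * comp F c A := by
  ext i j
  rw [Matrix.mul_apply]
  unfold Helper58.DM.comp
  split_ifs with h
  · rw [Matrix.mul_apply]
    refine Finset.sum_congr rfl fun l _ ↦ ?_
    by_cases hl : F.bl i = F.bl l
    · rw [← hl, if_pos h]
    · rw [hX i l hl, zero_mul, zero_mul]
  · refine (Finset.sum_eq_zero fun l _ ↦ ?_).symm
    by_cases hl : F.bl i = F.bl l
    · rw [← hl, if_neg h, mul_zero]
    · rw [hX i l hl, zero_mul]

theorem comp_mul_right (c : Fin 6) {X : Matrix I I ℂ} (hX : Bd F X) (A : Matrix I I ℂ) :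
    comp F c (A * X) = comp F c A * X := by
  ext i j
  rw [Matrix.mul_apply]
  unfold Helper58.DM.comp
  split_ifs with h
  · rw [Matrix.mul_apply]
    refine Finset.sum_congr rfl fun l _ ↦ ?_
    by_cases hl : F.bl l = F.bl j
    · rw [hl, if_pos h]
    · rw [hX l j hl, mul_zero, mul_zero]
  · refine (Finset.sum_eq_zero fun l _ ↦ ?_).symm
    by_cases hl : F.bl l = F.bl j
    · rw [hl, if_neg h, zero_mul]
    · rw [hX l j hl, mul_zero]

theorem prm_mul_left {X : Matrix I I ℂ} (hX : Bd F X) (A : Matrix I I ℂ) :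
    prm F (X * A) = X * prm F A := by
  ext i j
  rw [Matrix.mul_apply]
  unfold prm
  split_ifs with h
  · refine (Finset.sum_eq_zero fun l _ ↦ ?_).symm
    by_cases hl : F.bl i = F.bl l
    · rw [← hl, if_pos h, mul_zero]
    · rw [hX i l hl, zero_mul]
  · rw [Matrix.mul_apply]
    refine Finset.sum_congr rfl fun l _ ↦ ?_
    by_cases hl : F.bl i = F.bl l
    · rw [← hl, if_neg h]
    · rw [hX i l hl, zero_mul, zero_mul]

theorem prm_mul_right {X : Matrix I I ℂ} (hX : Bd F X) (A : Matrix I I ℂ) :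
    prm F (A * X) = prm F A * X := by
  ext i j
  rw [Matrix.mul_apply]
  unfold prm
  split_ifs with h
  · refine (Finset.sum_eq_zero fun l _ ↦ ?_).symm
    by_cases hl : F.bl l = F.bl j
    · rw [hl, if_pos h, zero_mul]
    · rw [hX l j hl, mul_zero]
  · rw [Matrix.mul_apply]
    refine Finset.sum_congr rfl fun l _ ↦ ?_
    by_cases hl : F.bl l = F.bl j
    · rw [hl, if_neg h]
    · rw [hX l j hl, mul_zero, mul_zero]

theorem comp_lie (c : Fin 6) {X : Matrix I I ℂ} (hX : Bd F X) (A : Matrix I I ℂ) :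
    comp F c ⁅X, A⁆ = ⁅X, comp F c A⁆ := by
  rw [Ring.lie_def, Ring.lie_def, sub_eq_add_neg, comp_add, comp_neg, comp_mul_left F c hX,
    comp_mul_right F c hX, ← sub_eq_add_neg]

theorem prm_lie {X : Matrix I I ℂ} (hX : Bd F X) (A : Matrix I I ℂ) :
    prm F ⁅X, A⁆ = ⁅X, prm F A⁆ := by
  rw [Ring.lie_def, Ring.lie_def, sub_eq_add_neg, prm_add, prm_neg, prm_mul_left F hX,
    prm_mul_right F hX, ← sub_eq_add_neg]

/-- skew hermitian and `Th` -/
def Sk (X : Matrix I I ℂ) : Prop := Xᴴ = -X ∧ Th F X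

theorem sk_conj {X : Matrix I I ℂ} (hX : Sk F X) (i j : I) : star (X j i) = -X i j := by
  have := congrFun (congrFun hX.1 i) j
  rwa [Matrix.conjTranspose_apply, Matrix.neg_apply] at this

/-- multiplication of the entries by a symmetric and `bar`-invariant real function of the blocks -/
theorem sk_of (X Y : Matrix I I ℂ) (hX : Sk F X) (f : Fin 5 → Fin 5 → Prop)
    [∀ a b, Decidable (f a b)] (hs : ∀ a b, f a b ↔ f b a) (hb : ∀ a b, f (bar5 a) (bar5 b) ↔ f a b)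
    (hY : ∀ i j, Y i j = if f (F.bl i) (F.bl j) then X i j else 0) : Sk F Y := by
  constructor
  · ext i j
    rw [Matrix.conjTranspose_apply, Matrix.neg_apply, hY, hY]
    by_cases h : f (F.bl i) (F.bl j)
    · rw [if_pos h, if_pos ((hs _ _).1 h), sk_conj F hX]
    · rw [if_neg h, if_neg (fun h1 ↦ h ((hs _ _).1 h1)), star_zero, neg_zero]
  · intro i j
    rw [hY, hY, F.bl_bar, F.bl_bar]
    by_cases h : f (F.bl i) (F.bl j)
    · rw [if_pos h, if_pos ((hb _ _).2 ((hs _ _).1 h)), hX.2]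
    · rw [if_neg h, if_neg (fun h1 ↦ h ((hs _ _).1 ((hb _ _).1 h1))), mul_zero]

theorem sk_comp (c : Fin 6) {X : Matrix I I ℂ} (hX : Sk F X) : Sk F (comp F c X) := by
  refine sk_of F X _ hX (fun a b ↦ cls a b = some c) ?_ ?_ fun i j ↦ rfl
  · intro a b
    rw [cls_symm]
  · intro a b
    rw [cls_bar]

theorem sk_prm {X : Matrix I I ℂ} (hX : Sk F X) : Sk F (prm F X) := by
  refine sk_of F X _ hX (fun a b ↦ ¬ a = b) ?_ ?_ fun i j ↦ ?_
  · intro a b
    rw [eq_comm]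
  · intro a b
    rw [bar5_inj]
  · unfold prm
    by_cases h : F.bl i = F.bl j
    · rw [if_pos h, if_neg (not_not.2 h)]
    · rw [if_neg h, if_pos h]

theorem sk_sub_prm {X : Matrix I I ℂ} (hX : Sk F X) : Sk F (X - prm F X) := by
  refine sk_of F X _ hX (fun a b ↦ a = b) ?_ ?_ fun i j ↦ ?_
  · intro a b
    rw [eq_comm]
  · intro a b
    rw [bar5_inj]
  · rw [Matrix.sub_apply]
    unfold prm
    by_cases h : F.bl i = F.bl j
    · rw [if_pos h, if_pos h, sub_zero]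
    · rw [if_neg h, if_neg h, sub_self]

theorem sk_add {X Y : Matrix I I ℂ} (hX : Sk F X) (hY : Sk F Y) : Sk F (X + Y) := by
  constructor
  · rw [Matrix.conjTranspose_add, hX.1, hY.1, neg_add]
  · intro i j
    rw [Matrix.add_apply, Matrix.add_apply, hX.2, hY.2, mul_add]

theorem sk_neg {X : Matrix I I ℂ} (hX : Sk F X) : Sk F (-X) := by
  constructor
  · rw [Matrix.conjTranspose_neg, hX.1]
  · intro i j
    rw [Matrix.neg_apply, Matrix.neg_apply, hX.2, mul_neg]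

theorem sk_sub {X Y : Matrix I I ℂ} (hX : Sk F X) (hY : Sk F Y) : Sk F (X - Y) := by
  rw [sub_eq_add_neg]
  exact sk_add F hX (sk_neg F hY)

theorem sk_zero : Sk F (0 : Matrix I I ℂ) := by
  constructor
  · rw [Matrix.conjTranspose_zero, neg_zero]
  · intro i j
    rw [Matrix.zero_apply, Matrix.zero_apply, mul_zero]

theorem sk_smul (r : ℝ) {X : Matrix I I ℂ} (hX : Sk F X) : Sk F (r • X) := by
  constructor
  · ext i j
    rw [Matrix.conjTranspose_apply, Matrix.neg_apply, Matrix.smul_apply, Matrix.smul_apply,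
      Complex.real_smul, Complex.real_smul, star_mul', sk_conj F hX, mul_neg]
    congr 2
    exact Complex.conj_ofReal r
  · intro i j
    rw [Matrix.smul_apply, Matrix.smul_apply, Complex.real_smul, Complex.real_smul, hX.2]
    ring

theorem sk_sum {κ : Type} (s : Finset κ) (A : κ → Matrix I I ℂ) (h : ∀ c ∈ s, Sk F (A c)) :
    Sk F (∑ c ∈ s, A c) := by
  classical
  induction s using Finset.induction_on with
  | empty => rw [Finset.sum_empty]; exact sk_zero F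
  | insert a s ha ih =>
    rw [Finset.sum_insert ha]
    exact sk_add F (h a (Finset.mem_insert_self a s)) (ih fun c hc ↦ h c (Finset.mem_insert_of_mem hc))

/-! ## The form `g` -/

theorem gx_comm (w : Fin 6 → ℝ) (X Y : Matrix I I ℂ) : gx F w X Y = gx F w Y X := by
  unfold gx
  exact Finset.sum_congr rfl fun c _ ↦ by rw [B_comm]

theorem gx_neg_right (w : Fin 6 → ℝ) (X Y : Matrix I I ℂ) : gx F w X (-Y) = -gx F w X Y := by
  unfold gx
  rw [← Finset.sum_neg_distrib]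
  exact Finset.sum_congr rfl fun c _ ↦ by rw [comp_neg, B_neg_right, mul_neg]

theorem gx_prm_right (w : Fin 6 → ℝ) (X Y : Matrix I I ℂ) : gx F w X (prm F Y) = gx F w X Y := by
  unfold gx
  exact Finset.sum_congr rfl fun c _ ↦ by rw [comp_prm]

theorem B_sum_comp (w : Fin 6 → ℝ) (A Y : Matrix I I ℂ) :
    B F (∑ c, w c • comp F c A) Y = gx F w A Y := by
  unfold gx
  rw [B_sum]
  exact Finset.sum_congr rfl fun c _ ↦ by rw [B_smul, B_comp]

end

theorem k_der (hM : M_ENT) : K_DER := by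
  intro I _ _ F w J hk hJ hH hC D
  obtain ⟨m1, m2, -, -, -, m6⟩ := hM I F hk
  have f1 : ∀ X, X ∈ fg F ↔ Sk F X := m1
  have f2 : ∀ X, X ∈ fm F ↔ Sk F X ∧ Off F X := m2
  have f6 : ∀ X Y, Sk F X → Sk F Y → Sk F ⁅X, Y⁆ := m6
  -- `𝔪 ⊆ 𝔤`, `prm`
  have pm : ∀ X, Sk F X → prm F X ∈ fm F := fun X hX ↦ (f2 _).2 ⟨sk_prm F hX, fun i j h ↦ if_pos h⟩
  have pk : ∀ X, Sk F X → X - prm F X ∈ fk F := fun X hX ↦ ⟨(f1 _).2 (sk_sub_prm F hX), fun i j h ↦ by
    rw [Matrix.sub_apply]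
    unfold prm
    rw [if_neg h, sub_self]⟩
  have kb : ∀ X ∈ fk F, Bd F X := fun X hX ↦ hX.2
  have kp : ∀ X ∈ fk F, prm F X = 0 := by
    intro X hX
    ext i j
    unfold prm
    split_ifs with h
    · rfl
    · exact hX.2 i j h
  have mp : ∀ X ∈ fm F, prm F X = X := by
    intro X hX
    ext i j
    unfold prm
    split_ifs with h
    · exact (((f2 X).1 hX).2 i j h).symm
    · rfl
  -- `D`
  have Dad : ∀ X Y, D (X + Y) = D X + D Y := by
    intro X Y
    show ∑ c, w c • comp F c (J (prm F (X + Y))) = _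
    rw [prm_add, map_add, ← Finset.sum_add_distrib]
    exact Finset.sum_congr rfl fun c _ ↦ by rw [comp_add, smul_add]
  have Dng : ∀ X, D (-X) = -D X := by
    intro X
    show ∑ c, w c • comp F c (J (prm F (-X))) = _
    rw [prm_neg, map_neg, ← Finset.sum_neg_distrib]
    exact Finset.sum_congr rfl fun c _ ↦ by rw [comp_neg, smul_neg]
  have Dm : ∀ X, Sk F X → D X ∈ fm F := by
    intro X hX
    have h1 := (f2 _).1 (hJ.mem _ (pm X hX))
    refine (f2 _).2 ⟨sk_sum F _ _ fun c _ ↦ sk_smul F _ (sk_comp F c h1.1), fun i j h ↦ ?_⟩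
    show (∑ c, w c • comp F c (J (prm F X))) i j = 0
    rw [Matrix.sum_apply]
    refine Finset.sum_eq_zero fun c _ ↦ ?_
    rw [Matrix.smul_apply]
    unfold Helper58.DM.comp
    rw [if_neg fun h2 ↦ ne_of_cls F h2 h, smul_zero]
  have Dk : ∀ X ∈ fk F, D X = 0 := by
    intro X hX
    show ∑ c, w c • comp F c (J (prm F X)) = 0
    rw [kp X hX, map_zero]
    exact Finset.sum_eq_zero fun c _ ↦ by rw [comp_zero, smul_zero]
  have BD : ∀ X Y, B F (D X) Y = gx F w (J (prm F X)) Y := fun X Y ↦ B_sum_comp F w _ Y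
  -- the case `X ∈ 𝔨`
  have c1 : ∀ X ∈ fk F, ∀ Y, Sk F Y → D ⁅X, Y⁆ = ⁅X, D Y⁆ := by
    intro X hX Y hY
    show ∑ c, w c • comp F c (J (prm F ⁅X, Y⁆)) = ⁅X, ∑ c, w c • comp F c (J (prm F Y))⁆
    rw [prm_lie F (kb X hX), hJ.inv X hX _ (pm Y hY), l_sum]
    exact Finset.sum_congr rfl fun c _ ↦ by rw [comp_lie F c (kb X hX), l_smul]
  have c2 : ∀ Y ∈ fk F, ∀ X, Sk F X → D ⁅X, Y⁆ = ⁅D X, Y⁆ := by
    intro Y hY X hX
    rw [← l_skew X Y, Dng, c1 Y hY X hX, l_skew]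
  -- `D` is skew
  have sk : ∀ X, Sk F X → ∀ Y, Sk F Y → B F (D X) Y = -B F X (D Y) := by
    intro X hX Y hY
    rw [B_comm F X, BD, BD]
    have h1 : gx F w (J (prm F X)) Y = gx F w (J (prm F X)) (prm F Y) := (gx_prm_right F w _ _).symm
    have h2 : prm F Y = -J (J (prm F Y)) := by rw [hJ.sq _ (pm Y hY), neg_neg]
    rw [h1, h2, gx_neg_right, hH _ (pm X hX) _ (hJ.mem _ (pm Y hY)), gx_comm, gx_prm_right]
    conv_rhs => rw [← h2]
  refine ⟨fun X hX ↦ (f1 _).2 ((f2 _).1 (Dm X ((f1 X).1 hX))).1, Dk, ?_⟩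
  -- the case `X, Y ∈ 𝔪`
  have c3 : ∀ X ∈ fm F, ∀ Y ∈ fm F, D ⁅X, Y⁆ = ⁅D X, Y⁆ + ⁅X, D Y⁆ := by
    intro X hX Y hY
    have sX := ((f2 X).1 hX).1
    have sY := ((f2 Y).1 hY).1
    have sDX := ((f2 _).1 (Dm X sX)).1
    have sDY := ((f2 _).1 (Dm Y sY)).1
    have sU : Sk F (D ⁅X, Y⁆ - (⁅D X, Y⁆ + ⁅X, D Y⁆)) :=
      sk_sub F ((f2 _).1 (Dm _ (f6 X Y sX sY))).1 (sk_add F (f6 _ _ sDX sY) (f6 _ _ sX sDY))
    have em : ∀ Z ∈ fm F, B F (D ⁅X, Y⁆ - (⁅D X, Y⁆ + ⁅X, D Y⁆)) Z = 0 := by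
      intro Z hZ
      have sZ := ((f2 Z).1 hZ).1
      have h1 := hC X hX Y hY Z hZ
      rw [← BD, ← BD, ← BD, sk _ (f6 Y Z sY sZ) X sX, sk _ (f6 Z X sZ sX) Y sY] at h1
      rw [B_sub, B_add, B_inv F (D X) Y Z, B_inv F X (D Y) Z, B_comm F X ⁅D Y, Z⁆, B_inv F (D Y) Z X,
        B_comm F (D X), B_comm F (D Y)]
      linarith
    have ek : ∀ Z ∈ fk F, B F (D ⁅X, Y⁆ - (⁅D X, Y⁆ + ⁅X, D Y⁆)) Z = 0 := by
      intro Z hZ
      have sZ : Sk F Z := (f1 Z).1 hZ.1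
      have h0 : B F (D ⁅X, Y⁆) Z = 0 := (Dm _ (f6 X Y sX sY)).2 Z hZ
      have h1 : ⁅D Y, Z⁆ = D ⁅Y, Z⁆ := (c2 Z hZ Y sY).symm
      have h2 := sk X sX _ (f6 Y Z sY sZ)
      rw [B_sub, B_add, h0, B_inv F (D X) Y Z, B_inv F X (D Y) Z, h1]
      linarith
    have e0 : B F (D ⁅X, Y⁆ - (⁅D X, Y⁆ + ⁅X, D Y⁆)) (D ⁅X, Y⁆ - (⁅D X, Y⁆ + ⁅X, D Y⁆)) = 0 := by
      set U := D ⁅X, Y⁆ - (⁅D X, Y⁆ + ⁅X, D Y⁆) with hU
      have h1 : U = (U - prm F U) + prm F U := by abel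
      have h2 : B F U U = B F U ((U - prm F U) + prm F U) := by rw [← h1]
      rw [h2, B_add_right, ek _ (pk U sU), em _ (pm U sU), add_zero]
    exact sub_eq_zero.1 (B_pos F hk _ sU.1 e0)
  intro X hX Y hY
  have sX := (f1 X).1 hX
  have sY := (f1 Y).1 hY
  obtain ⟨X₁, hX₁⟩ : ∃ X₁, X₁ = X - prm F X := ⟨_, rfl⟩
  obtain ⟨X₂, hX₂⟩ : ∃ X₂, X₂ = prm F X := ⟨_, rfl⟩
  obtain ⟨Y₁, hY₁⟩ : ∃ Y₁, Y₁ = Y - prm F Y := ⟨_, rfl⟩
  obtain ⟨Y₂, hY₂⟩ : ∃ Y₂, Y₂ = prm F Y := ⟨_, rfl⟩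
  have x1 : X₁ ∈ fk F := hX₁ ▸ pk X sX
  have x2 : X₂ ∈ fm F := hX₂ ▸ pm X sX
  have y1 : Y₁ ∈ fk F := hY₁ ▸ pk Y sY
  have y2 : Y₂ ∈ fm F := hY₂ ▸ pm Y sY
  have ex : X = X₁ + X₂ := by rw [hX₁, hX₂]; abel
  have ey : Y = Y₁ + Y₂ := by rw [hY₁, hY₂]; abel
  rw [ex, ey]
  simp only [add_l, l_add, Dad]
  rw [c1 X₁ x1 Y₁ ((f1 _).1 y1.1), c1 X₁ x1 Y₂ ((f2 _).1 y2).1, c2 Y₁ y1 X₂ ((f2 _).1 x2).1,
    c3 X₂ x2 Y₂ y2, Dk X₁ x1, Dk Y₁ y1]
  simp only [zero_l, l_zero]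
  abel

end Pool.Agent.Helper30.DM
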